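import Pool.Agent.Lib.MP_bfaad3_co.Final
import Pool.Agent.Lib.TopPl.Bridge

set_option autoImplicit false

namespace Pool.Agent.Results.MP_bfaad3_co.Drawn

open Pool.Agent.Lib.TopPl

/-- Every finite triangle-free planar graph is `L`-colourable for every assignment `L` of nonempty
finite lists with `|L u ∩ L v| ≥ 3` on every edge `uv`. -/
theorem result {V : Type*} [Fintype V] (G : SimpleGraph V) (hp : Planar G)
    (ht : G.CliqueFree 3) {κ : Type*} [DecidableEq κ] (L : V → Finset κ)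
    (hne : ∀ v, (L v).Nonempty) (h3 : ∀ u v, G.Adj u v → 3 ≤ (L u ∩ L v).card) :
    ∃ c : V → κ, (∀ v, c v ∈ L v) ∧ ∀ u v, G.Adj u v → c u ≠ c v :=
  Pool.Agent.Lib.MP_bfaad3_co.final_of Pool.Agent.Lib.MP_bfaad3_co.no_ctx G
    (isPlanar_of_planar hp) ht L hne h3

end Pool.Agent.Results.MP_bfaad3_co.Drawn
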